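import Pool.Agent.Helper5.MMRepB

set_option autoImplicit false

/-!
# The action on replicas; laws of the pairs; second moment argument
-/

namespace Pool.Agent.Helper5.MM.Tog

open MeasureTheory ProbabilityTheory Filter Topology Pool.Agent.Helper60.TJ Pool.Agent.Helper5.Rep
open Pool.Agent.Helper61.MM
open scoped symmDiff

variable {lam : Measure ℝ} {κ : Kernel WT Rs} {R : Measure Om}

theorem measurable_aO (g : Gm) : Measurable (aO g) :=
  ((meas_aE g).comp measurable_fst).prodMk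
      (((meas_aV g).comp (measurable_fst.comp measurable_snd)).prodMk
      (((meas_aV g).comp (measurable_fst.comp (measurable_snd.comp measurable_snd))).prodMk
      ((meas_aV g).comp (measurable_snd.comp (measurable_snd.comp measurable_snd)))))

theorem gad_assoc (a b c : Gm) : gad (gad a b) c = gad a (gad b c) :=
  Prod.ext (symmDiff_assoc _ _ _) (symmDiff_assoc _ _ _)

theorem gad_comm (a b : Gm) : gad a b = gad b a :=
  Prod.ext (symmDiff_comm _ _) (symmDiff_comm _ _)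

theorem aE_gad (g g' : Gm) (ω : Env) : aE g (aE g' ω) = aE (gad g g') ω := by
  refine Prod.ext ?_ ?_
  · funext e
    simp only [aE, gad, Finset.mem_symmDiff]
    by_cases h : e ∈ g.2 <;> by_cases h' : e ∈ g'.2 <;> simp [h, h']
  · funext v
    simp only [aE, gad, vx, indV, Finset.mem_symmDiff]
    by_cases h : v ∈ g.1 <;> by_cases h' : v ∈ g'.1 <;> simp [h, h']

theorem aV_gad (g g' : Gm) (s : Vl) : aV g (aV g' s) = aV (gad g g') s := by
  funext g''
  unfold aV
  rw [← gad_assoc, gad_comm g' g]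

theorem aO_aO (g g' : Gm) (z : Om) : aO g (aO g' z) = aO (gad g g') z := by
  refine Prod.ext (aE_gad _ _ _) (Prod.ext (aV_gad _ _ _) (Prod.ext (aV_gad _ _ _) (aV_gad _ _ _)))

theorem ww_aE (g g' : Gm) (ω : Env) : ww g' (aE g ω) = ww (gad g g') ω := by
  funext e
  simp only [ww, aE, gad, Finset.mem_symmDiff]
  by_cases h : e ∈ g.2 <;> by_cases h' : e ∈ g'.2 <;> simp [h, h']

theorem pr_aO (i j : Fin 3) (g g' : Gm) (z : Om) : pr i j g' (aO g z) = pr i j (gad g g') z := by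
  have h1 : ∀ k, uu (rp (aO g z) k) g' = uu (rp z k) (gad g g') := by
    intro k
    rw [rp_aO]
    rfl
  unfold pr
  rw [h1, h1]
  congr 1
  exact ww_aE g g' z.1

theorem rp_shO (u : Vx) (z : Om) (i : Fin 3) : rp (shO u z) i = shV u (rp z i) := by
  fin_cases i <;> rfl

theorem pr_shO (i j : Fin 3) (u : Vx) (z : Om) :
    pr i j g0 (shO u z) = shX u (pr i j g0 z) := by
  have h1 : ∀ s : Vl, uu (shV u s) g0 = sh u (uu s g0) := by
    intro s
    unfold uu shV shSt
    have h2 : ((trV u g0.1, trE u g0.2) : Gm) = g0 := by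
      simp [trV, trE]
    rw [h2]
  unfold pr shX
  rw [rp_shO, rp_shO]
  refine Prod.ext ?_ (Prod.ext ?_ ?_)
  · funext e
    simp [ww, shO, Pool.Agent.Helper61.MM.shE, sh]
  · exact h1 _
  · exact h1 _

theorem measurable_pr (i j : Fin 3) (g : Gm) : Measurable (pr i j g) := meas_pr i j g

theorem measurableSet_Df (i j : Fin 3) (g : Gm) : MeasurableSet (Df i j g) :=
  Pool.Agent.Helper5.MM.measurableSet_Df i j g

/-- the law of the observables, up to a constant -/
theorem map_obs' (hR : IsR lam κ R) :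
    SFinite (PB lam) ∧ R.map obs = (PP lam) Set.univ • ((PB lam) ⊗ₘ (κ ×ₖ (κ ×ₖ κ))) := by
  have := hR.mark
  have := hR.prob
  have h2 : Measurable (fun z : Om =>
      (spr z.1, bE0 z.1, rs z.2.1, rs z.2.2.1, rs z.2.2.2)) :=
    (meas_spr.comp measurable_fst).prodMk meas_obs
  have h3 : IsProbabilityMeasure (R.map (fun z : Om =>
      (spr z.1, bE0 z.1, rs z.2.1, rs z.2.2.1, rs z.2.2.2))) :=
    Measure.isProbabilityMeasure_map h2.aemeasurable
  have hsf : SFinite (PB lam) := by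
    by_contra hcon
    have h4 := hR.law
    rw [Measure.compProd_of_not_sfinite _ _ hcon, Measure.prod_zero] at h4
    rw [h4] at h3
    have h5 := h3.measure_univ
    rw [Measure.coe_zero, Pi.zero_apply] at h5
    exact zero_ne_one h5
  refine ⟨hsf, ?_⟩
  have h1 : obs = Prod.snd ∘ (fun z : Om =>
    (spr z.1, bE0 z.1, rs z.2.1, rs z.2.2.1, rs z.2.2.2)) := rfl
  rw [h1, ← Measure.map_map measurable_snd h2, hR.law, Measure.map_snd_prod]

theorem map_pr' (hR : IsR lam κ R) {i j : Fin 3} (hij : i ≠ j) (g : Gm) :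
    R.map (pr i j g) = (PP lam) Set.univ • ((PB lam) ⊗ₘ (κ ×ₖ κ)).map obs2 := by
  obtain ⟨hsf, hobs⟩ := map_obs' hR
  have := hR.mark
  have := hR.prob
  have h0 : R.map (pr i j g) = R.map (pr i j g0) := by
    have h1 : pr i j g = pr i j g0 ∘ aO g := funext fun z => by
      rw [Function.comp_apply, pr_aO, gad_g0]
    rw [h1, ← Measure.map_map (meas_pr i j g0) (hR.act g).measurable, (hR.act g).map_eq]
  rw [h0]
  have hsw : ((PB lam) ⊗ₘ (κ ×ₖ κ)).map
      (fun p : WT × (Rs × Rs) => (p.1, (p.2.2, p.2.1))) = (PB lam) ⊗ₘ (κ ×ₖ κ) := cp2_swap _ _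
  have key : ∀ (f : WT × Rs × Rs × Rs → WT × Rs × Rs), Measurable f →
      ((PB lam) ⊗ₘ (κ ×ₖ (κ ×ₖ κ))).map f = (PB lam) ⊗ₘ (κ ×ₖ κ) → pr i j g0 = obs2 ∘ f ∘ obs →
      R.map (pr i j g0) = (PP lam) Set.univ • ((PB lam) ⊗ₘ (κ ×ₖ κ)).map obs2 := by
    intro f hf h1 h2
    rw [h2, ← Measure.map_map meas_obs2 (hf.comp meas_obs), ← Measure.map_map hf meas_obs,
      hobs, Measure.map_smul, h1, Measure.map_smul]
  have h12 := cp3_map12 (PB lam) κ
  have h13 := cp3_map13 (PB lam) κ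
  have h23 := cp3_map23 (PB lam) κ
  have hsm : Measurable (fun p : WT × (Rs × Rs) => (p.1, (p.2.2, p.2.1))) := by fun_prop
  have h21 : ((PB lam) ⊗ₘ (κ ×ₖ (κ ×ₖ κ))).map
      (fun p : WT × (Rs × Rs × Rs) => (p.1, (p.2.2.1, p.2.1))) = (PB lam) ⊗ₘ (κ ×ₖ κ) := by
    conv_rhs => rw [← hsw, ← h12, Measure.map_map hsm (by fun_prop)]
    rfl
  have h31 : ((PB lam) ⊗ₘ (κ ×ₖ (κ ×ₖ κ))).map
      (fun p : WT × (Rs × Rs × Rs) => (p.1, (p.2.2.2, p.2.1))) = (PB lam) ⊗ₘ (κ ×ₖ κ) := by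
    conv_rhs => rw [← hsw, ← h13, Measure.map_map hsm (by fun_prop)]
    rfl
  have h32 : ((PB lam) ⊗ₘ (κ ×ₖ (κ ×ₖ κ))).map
      (fun p : WT × (Rs × Rs × Rs) => (p.1, (p.2.2.2, p.2.2.1))) = (PB lam) ⊗ₘ (κ ×ₖ κ) := by
    conv_rhs => rw [← hsw, ← h23, Measure.map_map hsm (by fun_prop)]
    rfl
  have hpr : ∀ z, (pr i j g0 z) = (((bE0 z.1).1), (rs (rp z i) ∅).1, (rs (rp z j) ∅).1) := by
    intro z
    rfl
  fin_cases i <;> fin_cases j
  · exact absurd rfl hij
  · exact key _ (by fun_prop) h12 (funext fun z => hpr z)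
  · exact key _ (by fun_prop) h13 (funext fun z => hpr z)
  · exact key _ (by fun_prop) h21 (funext fun z => hpr z)
  · exact absurd rfl hij
  · exact key _ (by fun_prop) h23 (funext fun z => hpr z)
  · exact key _ (by fun_prop) h31 (funext fun z => hpr z)
  · exact key _ (by fun_prop) h32 (funext fun z => hpr z)
  · exact absurd rfl hij

/-- all pairs have the same law -/
theorem law_pr (hR : IsR lam κ R) {i j : Fin 3} (hij : i ≠ j) (g : Gm) :
    (R.restrict (Df i j g)).map (pr i j g) = QQ R := by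
  unfold QQ
  rw [Df_eq, Df_eq, ← Measure.restrict_map (meas_pr i j g) measurableSet_ne,
    ← Measure.restrict_map (meas_pr 0 1 g0) measurableSet_ne, map_pr' hR hij g,
    map_pr' hR (by decide) g0]

theorem le_QQ (hR : IsR lam κ R) {i j : Fin 3} (hij : i ≠ j) (g : Gm) (D : Set XX)
    : R {z | z ∈ Df i j g ∧ pr i j g z ∈ D} ≤ QQ R D := by
  obtain ⟨D', hD, hD', hm⟩ := exists_measurable_superset (QQ R) D
  rw [← hm, ← law_pr hR hij g, Measure.map_apply (meas_pr i j g) hD',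
    Measure.restrict_apply (hD'.preimage (meas_pr i j g))]
  refine measure_mono ?_
  rintro z ⟨h1, h2⟩
  exact ⟨hD h2, h1⟩

/-- second moment argument -/
theorem bf (hR : IsR lam κ R) {D : Set Om} (hD : MeasurableSet D) (B : Finset Vx) :
    (R D) ^ 2 * (B.card : ENNReal) ^ 2 ≤
      ∑ x ∈ B, ∑ x' ∈ B, R (D ∩ aO (txy x x') ⁻¹' D) := by
  have := hR.prob
  set a : Vx → Gm := fun x => ({x}, ∅) with ha
  have hm : ∀ x ∈ B, MeasurableSet (aO (a x) ⁻¹' D) := fun x _ =>
    hD.preimage (measurable_aO (a x))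
  have h1 := sq_sum_le R B (fun x => aO (a x) ⁻¹' D) hm
  have h2 : ∀ x, R (aO (a x) ⁻¹' D) = R D := fun x => (hR.act (a x)).measure_preimage
    hD.nullMeasurableSet
  have h3 : ∀ x x', R (aO (a x) ⁻¹' D ∩ aO (a x') ⁻¹' D) = R (D ∩ aO (txy x x') ⁻¹' D) := by
    intro x x'
    have h4 : aO (a x) ⁻¹' (D ∩ aO (txy x x') ⁻¹' D) = aO (a x) ⁻¹' D ∩ aO (a x') ⁻¹' D := by
      ext z
      simp only [Set.mem_preimage, Set.mem_inter_iff, aO_aO]
      have h5 : gad (txy x x') (a x) = a x' := by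
        refine Prod.ext ?_ ?_
        · simp only [gad, txy, ha]
          rw [symmDiff_comm, ← symmDiff_assoc, symmDiff_self, bot_symmDiff]
        · simp only [gad, txy, ha]
          exact symmDiff_self _
      rw [h5]
    rw [← h4, (hR.act (a x)).measure_preimage
      (hD.inter (hD.preimage (measurable_aO _))).nullMeasurableSet]
  simp only [h2, h3, Finset.sum_const, nsmul_eq_mul] at h1
  rwa [mul_pow, mul_comm] at h1

end Pool.Agent.Helper5.MM.Tog
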